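import Pool.Agent.H5.QH.Targets

set_option autoImplicit false

open NumberField IsDedekindDomain Matrix Pool.Agent.H32.QC Pool.Agent.H34.N6 Pool.Agent.H5.QH

namespace Pool.Agent.H59.QH

/-- conics with one exceptional place -/
theorem pf_CON (hP : Pool.Agent.H23.QCF.T_PF) (hB : Pool.Agent.H23.QCF.T_B5) : T_CON := by
  intro K _ _ a b w₀ ha hb h
  refine hB K a b ha hb fun w => ?_
  by_cases hw : w = Sum.inl w₀
  · subst hw
    have h1 := (hP K a b ha hb).2
    rwa [finprod_eq_single _ (Sum.inl w₀) (fun w hw => h w hw)] at h1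
  · exact h w hw

end Pool.Agent.H59.QH
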