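import Pool.Agent.H5.QH.Targets

set_option autoImplicit false

open NumberField IsDedekindDomain Matrix Pool.Agent.H32.QC Pool.Agent.H34.N6 Pool.Agent.H5.QH

namespace Pool.Agent.H59.QH

theorem gram_rep {F : Type} [Field F] {m p : ℕ} (Q : Matrix (Fin m) (Fin p) F) (a : Fin m → F)
    (i j : Fin p) : (Qᵀ * diagonal a * Q) i j = ∑ k, Q k i * a k * Q k j := by
  rw [Matrix.mul_apply]
  refine Finset.sum_congr rfl fun k _ => ?_
  rw [Matrix.mul_diagonal, Matrix.transpose_apply]

/-- splitting off a value -/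
theorem pf_REP (hD : T_DGN) : T_REP := by
  intro F _ h2 n a u t ha ht hu
  obtain ⟨j0, hj0⟩ : ∃ j, u j ≠ 0 := by
    by_contra hc
    push Not at hc
    apply ht
    rw [← hu]
    exact Finset.sum_eq_zero fun i _ => by rw [hc i]; ring
  have hc0 : a j0 * u j0 ≠ 0 := mul_ne_zero (ha j0) hj0
  let Q0 : Matrix (Fin (n + 1)) (Fin (n + 1)) F := fun i => vecCons (u i) (fun j =>
    if i = j0 then -(a (j0.succAbove j) * u (j0.succAbove j)) / (a j0 * u j0) else
      if i = j0.succAbove j then 1 else 0)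
  have q0 : ∀ i, Q0 i 0 = u i := fun i => rfl
  have qs0 : ∀ j, Q0 j0 (Fin.succ j) =
      -(a (j0.succAbove j) * u (j0.succAbove j)) / (a j0 * u j0) := by
    intro j
    simp [Q0]
  have qs1 : ∀ k j, Q0 (j0.succAbove k) (Fin.succ j) = if k = j then 1 else 0 := by
    intro k j
    simp [Q0, Fin.succAbove_ne]
  have h00 : (Q0ᵀ * diagonal a * Q0) 0 0 = t := by
    rw [gram_rep, ← hu]
    refine Finset.sum_congr rfl fun i _ => ?_
    rw [q0]; ring
  have h0s : ∀ j : Fin n, ∑ k, u k * a k * Q0 k (Fin.succ j) = 0 := by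
    intro j
    rw [Fin.sum_univ_succAbove _ j0, qs0]
    have : ∑ i, u (j0.succAbove i) * a (j0.succAbove i) * Q0 (j0.succAbove i) (Fin.succ j) =
        u (j0.succAbove j) * a (j0.succAbove j) := by
      rw [Finset.sum_eq_single j]
      · rw [qs1, if_pos rfl, mul_one]
      · intro k _ hk
        rw [qs1, if_neg hk, mul_zero]
      · intro h; exact absurd (Finset.mem_univ j) h
    rw [this]
    have h3 := ha j0
    field_simp
    ring
  have h0j : ∀ j : Fin n, (Q0ᵀ * diagonal a * Q0) 0 (Fin.succ j) = 0 := by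
    intro j
    rw [gram_rep]
    simp only [q0]
    exact h0s j
  have hsymm : (Q0ᵀ * diagonal a * Q0).IsSymm := by
    unfold Matrix.IsSymm
    rw [transpose_mul, transpose_mul, transpose_transpose, diagonal_transpose, Matrix.mul_assoc]
  have hj0' : ∀ j : Fin n, (Q0ᵀ * diagonal a * Q0) (Fin.succ j) 0 = 0 := by
    intro j
    rw [← h0j j, ← hsymm.apply 0 (Fin.succ j)]
  have hdet0 : Q0.det ≠ 0 := by
    intro h
    obtain ⟨v, hv, hv0⟩ := Matrix.exists_mulVec_eq_zero_iff.2 h
    apply hv
    have hrow : ∀ i, u i * v 0 + ∑ j : Fin n, Q0 i (Fin.succ j) * v (Fin.succ j) = 0 := by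
      intro i
      have := congrFun hv0 i
      rw [Matrix.mulVec, dotProduct, Fin.sum_univ_succ, q0] at this
      exact this
    have hv0' : v 0 = 0 := by
      have e : ∑ i, u i * a i * (u i * v 0 + ∑ j : Fin n, Q0 i (Fin.succ j) * v (Fin.succ j)) =
          t * v 0 := by
        simp_rw [mul_add, Finset.mul_sum]
        rw [Finset.sum_add_distrib, Finset.sum_comm]
        have e1 : ∑ y : Fin n, ∑ x, u x * a x * (Q0 x (Fin.succ y) * v (Fin.succ y)) = 0 := by
          refine Finset.sum_eq_zero fun j _ => ?_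
          have : ∑ x, u x * a x * (Q0 x (Fin.succ j) * v (Fin.succ j)) =
              (∑ x, u x * a x * Q0 x (Fin.succ j)) * v (Fin.succ j) := by
            rw [Finset.sum_mul]
            exact Finset.sum_congr rfl fun x _ => by ring
          rw [this, h0s, zero_mul]
        rw [e1, add_zero, ← hu, Finset.sum_mul]
        exact Finset.sum_congr rfl fun x _ => by ring
      have e2 : ∑ i, u i * a i * (u i * v 0 + ∑ j : Fin n, Q0 i (Fin.succ j) * v (Fin.succ j)) =
          0 := Finset.sum_eq_zero fun i _ => by rw [hrow i, mul_zero]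
      rw [e2] at e
      rcases mul_eq_zero.1 e.symm with h | h
      · exact absurd h ht
      · exact h
    funext i
    refine Fin.cases hv0' (fun k => ?_) i
    have h1 := hrow (j0.succAbove k)
    rw [hv0', mul_zero, zero_add, Finset.sum_eq_single k] at h1
    · rw [qs1, if_pos rfl, one_mul] at h1
      exact h1
    · intro j _ hj
      rw [qs1, if_neg (Ne.symm hj), zero_mul]
    · intro h; exact absurd (Finset.mem_univ k) h
  have hdetB : (Q0ᵀ * diagonal a * Q0).det ≠ 0 := by
    rw [det_mul, det_mul, det_transpose, det_diagonal]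
    exact mul_ne_zero (mul_ne_zero hdet0 (Finset.prod_ne_zero_iff.2 fun i _ => ha i)) hdet0
  set B := Q0ᵀ * diagonal a * Q0 with hB
  let N : Matrix (Fin n) (Fin n) F := fun i j => B (Fin.succ i) (Fin.succ j)
  have hN : N.IsSymm := by
    ext i j
    exact hsymm.apply (Fin.succ i) (Fin.succ j)
  have hNd : N.det ≠ 0 := by
    intro h
    obtain ⟨v, hv, hv0⟩ := Matrix.exists_mulVec_eq_zero_iff.2 h
    refine hdetB (Matrix.exists_mulVec_eq_zero_iff.1 ⟨vecCons 0 v, ?_, ?_⟩)
    · intro h0
      apply hv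
      funext i
      have := congrFun h0 (Fin.succ i)
      simpa using this
    · funext i
      rw [Matrix.mulVec, dotProduct, Fin.sum_univ_succ]
      simp only [cons_val_zero, mul_zero, zero_add, cons_val_succ, Pi.zero_apply]
      refine Fin.cases ?_ (fun k => ?_) i
      · exact Finset.sum_eq_zero fun j _ => by rw [h0j, zero_mul]
      · exact congrFun hv0 k
  obtain ⟨b, Q1, hb, _, hQ1⟩ := hD F h2 n N hN hNd
  let Q2 : Matrix (Fin (n + 1)) (Fin (n + 1)) F :=
    vecCons (vecCons 1 0) (fun i => vecCons 0 (Q1 i))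
  have key : Q2ᵀ * B * Q2 = diagonal (vecCons t b) := by
    have a0 : Q2 0 0 = 1 := rfl
    have a1 : ∀ j : Fin n, Q2 0 (Fin.succ j) = 0 := fun j => rfl
    have a2 : ∀ i : Fin n, Q2 (Fin.succ i) 0 = 0 := fun i => rfl
    have a3 : ∀ i j : Fin n, Q2 (Fin.succ i) (Fin.succ j) = Q1 i j := fun i j => rfl
    ext i j
    rw [Matrix.mul_apply, Fin.sum_univ_succ]
    simp only [Matrix.mul_apply, Fin.sum_univ_succ, transpose_apply]
    refine Fin.cases ?_ (fun i => ?_) i <;> refine Fin.cases ?_ (fun j => ?_) j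
    · simp [a0, a2, h00]
    · rw [diagonal_apply_ne _ (Fin.succ_ne_zero j).symm]
      simp [a0, a1, a2, h0j]
    · simp [a0, a1, a2, a3, hj0']
    · have h1 := congrFun (congrFun hQ1 i) j
      rw [Matrix.mul_apply] at h1
      simp only [Matrix.mul_apply, transpose_apply] at h1
      simp only [a1, a3, h0j, hj0', zero_mul, mul_zero, zero_add]
      rw [show (∑ x : Fin n, (∑ y : Fin n, Q1 y i * B (Fin.succ y) (Fin.succ x)) * Q1 x j) =
        diagonal b i j from h1]
      by_cases hij : i = j
      · subst hij; simp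
      · rw [diagonal_apply_ne _ hij, diagonal_apply_ne _ (fun h => hij (Fin.succ_inj.1 h))]
  have key2 : (Q0 * Q2)ᵀ * diagonal a * (Q0 * Q2) = diagonal (vecCons t b) := by
    rw [← key, hB, transpose_mul]
    simp only [Matrix.mul_assoc]
  refine ⟨b, Q0 * Q2, hb, ?_, key2⟩
  rw [isUnit_iff_ne_zero]
  intro h
  have h3 := congrArg Matrix.det key2
  rw [det_mul, h, mul_zero, det_diagonal, Fin.prod_univ_succ] at h3
  simp only [cons_val_zero, cons_val_succ] at h3
  exact (mul_ne_zero ht (Finset.prod_ne_zero_iff.2 fun i _ => hb i)) h3.symm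

end Pool.Agent.H59.QH
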